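import Pool.Agent.R29.IDF.Main

/-!
# Finite groups whose derived subgroup determines integrability (MP_dbca9e_al, Q1)
-/

set_option autoImplicit false

namespace Pool.Agent.Results.MP_dbca9e_al.PropertyD

/-- A group `G` is integrable if some group `K` has derived subgroup isomorphic to `G`. -/
def Integrable (G : Type) [Group G] : Prop :=
  ∃ (K : Type) (_ : Group K), Nonempty (commutator K ≃* G)

/-- Property (D): every finite group `H` with `H' ≅ G'` is integrable if and only if `G` is. -/
def PropD (G : Type) [Group G] : Prop :=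
  ∀ (H : Type) [Group H] [Finite H], Nonempty (commutator H ≃* commutator G) →
    (Integrable H ↔ Integrable G)

/-- The derived subgroup of `G` is abelian and nontrivial. -/
def AbelianDerived (G : Type) [Group G] : Prop :=
  commutator G ≠ ⊥ ∧ ∀ a ∈ commutator G, ∀ b ∈ commutator G, a * b = b * a

/-- `V` is a characteristic, non-central subgroup of `N` (some element of `N` does not centralise
`V`) and the automorphism group of `V` has derived length at most two. -/
def MetaSub (N : Type) [Group N] (V : Subgroup N) : Prop :=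
  V.Characteristic ∧ derivedSeries (MulAut V) 2 = ⊥ ∧ ∃ n : N, ∃ v ∈ V, n * v ≠ v * n

/-- `N` is perfect, has trivial centre and has only inner automorphisms. -/
def PerfectComplete (N : Type) [Group N] : Prop :=
  commutator N = ⊤ ∧ Subgroup.center N = ⊥ ∧ ∀ φ : MulAut N, ∃ g : N, φ = MulAut.conj g

theorem result :
    (∀ (G : Type) [Group G] [Finite G], AbelianDerived G → ¬ PropD G) ∧
    (∀ (G : Type) [Group G] [Finite G], (∃ V, MetaSub (commutator G) V) →
      PropD G ∧ ¬ Integrable G) ∧
    (∀ (G : Type) [Group G] [Finite G], PerfectComplete (commutator G) →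
      PropD G ∧ Integrable G) ∧
    PropD (Equiv.Perm (Fin 4)) ∧ ¬ Integrable (Equiv.Perm (Fin 4)) := by
  obtain ⟨h1, h2, h3, h4, h5⟩ := R29ID.main
  refine ⟨fun G _ _ h => h1 G h.1 h.2, ?_, fun G _ _ h => h3 G h.1 h.2.1 h.2.2, h4, h5⟩
  rintro G _ _ ⟨V, hV1, hV2, n, v, hv, hnv⟩
  refine h2 G V hV1 hV2 fun hle => hnv ?_
  exact ((Subgroup.mem_centralizer_iff.1 (hle (Subgroup.mem_top n))) v hv).symm

end Pool.Agent.Results.MP_dbca9e_al.PropertyD
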